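import Pool.Agent.Helper14.TL7.StD

/-!
# Project TL, level `4 * 7^n`, module UNB
-/

set_option autoImplicit false

namespace Pool.Agent.Helper86.TL7

open Pool.Agent.Helper14.TL7
open Pool.Agent.Helper4.TL (eps OkE SymE evLE eps_mod)
open Pool.Agent.Helper14.CV (Homog EqC act Tl)

/-- The potential `G(7^r p, q)` with complex values. -/
private def Go (r : ℕ) (G : ℤ → ℤ → ℤ) : ℤ → ℤ → ℂ := fun p q => ((G (7 ^ r * p) q : ℤ) : ℂ)

private lemma sub_one_dvd_pow_sub_one (t : ℕ) : (2 : ℤ) ∣ 7 ^ t - 1 := by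
  have h : (7 : ℤ) - 1 ∣ 7 ^ t - 1 ^ t := sub_dvd_pow_sub_pow 7 1 t
  rw [one_pow] at h
  exact dvd_trans (by norm_num) h

private lemma seven_or (r : ℕ) {p q : ℤ} (h : p ≠ 0 ∨ q ≠ 0) : (7 ^ r * p ≠ 0 ∨ q ≠ 0) := by
  rcases h with h0 | h0
  · exact Or.inl (mul_ne_zero (by positivity) h0)
  · exact Or.inr h0

private lemma sym_Go {r s : ℕ} {G : ℤ → ℤ → ℤ} (h : SymE 7 r s G) : SymE 7 0 (r + s) (Go r G) := by
  refine ⟨?_, ?_⟩
  · intro k p q hk hpq
    have e := h.1 k (7 ^ r * p) q hk (seven_or r hpq)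
    have e1 : 7 ^ r * (k * p) = k * (7 ^ r * p) := by ring
    simp only [Go]
    rw [e1, e]
  · intro a b c d hdet _ hc
    obtain ⟨c', hc'⟩ := hc
    rw [Nat.cast_ofNat] at hc'
    obtain ⟨k, hk⟩ := h.2 a (7 ^ r * b) (7 ^ s * c') d
      (by rw [← hdet, hc', pow_add]; ring)
      (by rw [Nat.cast_ofNat]; exact Dvd.intro _ rfl) (by rw [Nat.cast_ofNat]; exact Dvd.intro _ rfl)
    refine ⟨(k : ℂ), ?_⟩
    intro p q hpq
    have e := hk (7 ^ r * p) q (seven_or r hpq)
    have h7 : ∀ (t : ℕ) (x : ℤ), (2 : ℤ) ∣ 7 ^ t * x - x := by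
      intro t x
      have o : (2 : ℤ) ∣ 7 ^ t - 1 := by
        have := sub_one_dvd_pow_sub_one t
        exact this
      have e0 : (7 : ℤ) ^ t * x - x = (7 ^ t - 1) * x := by ring
      rw [e0]
      exact Dvd.dvd.mul_right o x
    have he : eps a (7 ^ r * b) (7 ^ s * c') d = eps a b c d := by
      refine eps_mod (by rw [sub_self]; exact dvd_zero _) (h7 r b) ?_ (by rw [sub_self]; exact dvd_zero _)
      have e7 : c = 7 ^ (r + s) * c' := hc'
      have e8 := h7 s c'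
      have e9 := h7 (r + s) c'
      rw [← e7] at e9
      have e10 : 7 ^ s * c' - c = (7 ^ s * c' - c') - (c - c') := by ring
      rw [e10]
      exact dvd_sub e8 e9
    rw [he] at e
    simp only [act, Go, Pi.smul_apply, smul_eq_mul, zsmul_eq_mul] at e ⊢
    have e1 : 7 ^ r * (a * p + b * q) = a * (7 ^ r * p) + 7 ^ r * b * q := by ring
    have e2 : c * p + d * q = 7 ^ s * c' * (7 ^ r * p) + d * q := by
      rw [hc', pow_add]
      ring
    rw [e1, e2, e]
    push_cast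
    ring

private lemma Tl_Go (l r : ℕ) (G : ℤ → ℤ → ℤ) : Tl l 2 (Go r G) = Go r (Tl l (2 * 7 ^ r) G) := by
  funext p q
  simp only [Tl, Go]
  rw [Int.cast_add, Int.cast_sum]
  congr 1
  · congr 2
    ring
  · refine Finset.sum_congr rfl ?_
    intro j _
    congr 2
    ring

private lemma Go_add (r : ℕ) (G H : ℤ → ℤ → ℤ) : Go r (G + H) = Go r G + Go r H := by
  funext p q
  simp only [Go, Pi.add_apply, Int.cast_add]

private lemma Go_sub (r : ℕ) (G H : ℤ → ℤ → ℤ) : Go r (G - H) = Go r G - Go r H := by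
  funext p q
  simp only [Go, Pi.sub_apply, Int.cast_sub]

private lemma Go_smul (r : ℕ) (n : ℤ) (G : ℤ → ℤ → ℤ) : Go r (n • G) = n • Go r G := by
  funext p q
  simp only [Go, Pi.smul_apply, zsmul_eq_mul, smul_eq_mul, Int.cast_mul]

private lemma Oo_Go (c r : ℕ) (G : ℤ → ℤ → ℤ) :
    OoE c 2 (Go r G) = Go r (OoE c (2 * 7 ^ r) G) := by
  unfold OoE
  split_ifs
  · rfl
  · simp only [Go_add, Tl_Go]
  · simp only [Go_add, Go_smul, Tl_Go]
  · simp only [Go_add, Go_smul, Tl_Go]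

private lemma Uo_Go (r : ℕ) (G : ℤ → ℤ → ℤ) : UoE 2 (Go r G) = Go r (UoE (2 * 7 ^ r) G) := by
  unfold UoE
  simp only [Go_sub, Go_smul, Tl_Go]

private lemma Vo_Go (r : ℕ) (G : ℤ → ℤ → ℤ) : VoE 2 (Go r G) = Go r (VoE (2 * 7 ^ r) G) := by
  unfold VoE
  simp only [Tl_Go, ← Go_add, ← Go_smul]

private lemma homog_Tl {G : ℤ → ℤ → ℤ} (l : ℕ) (hl : 0 < l) (m : ℤ) (h : Homog G) :
    Homog (Tl l m G) := by
  intro k p q hk hpq
  have hl0 : (l : ℤ) ≠ 0 := by exact_mod_cast hl.ne'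
  simp only [Tl]
  congr 1
  · have e := h k (l * p) q hk (by
      rcases hpq with h0 | h0
      · exact Or.inl (mul_ne_zero hl0 h0)
      · exact Or.inr h0)
    rw [← e]
    congr 1
    ring
  · refine Finset.sum_congr rfl ?_
    intro j _
    have e := h k (p + m * j * q) (l * q) hk (by
      by_cases hq : q = 0
      · left
        rcases hpq with h0 | h0
        · rw [hq, mul_zero, add_zero]
          exact h0
        · exact absurd hq h0
      · exact Or.inr (mul_ne_zero hl0 hq))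
    rw [← e]
    congr 1
    · ring
    · ring

private lemma homog_add {G H : ℤ → ℤ → ℤ} (hG : Homog G) (hH : Homog H) : Homog (G + H) := by
  intro k p q hk hpq
  simp only [Pi.add_apply]
  rw [hG k p q hk hpq, hH k p q hk hpq]

private lemma homog_sub {G H : ℤ → ℤ → ℤ} (hG : Homog G) (hH : Homog H) : Homog (G - H) := by
  intro k p q hk hpq
  simp only [Pi.sub_apply]
  rw [hG k p q hk hpq, hH k p q hk hpq]

private lemma homog_smul {G : ℤ → ℤ → ℤ} (n : ℤ) (hG : Homog G) : Homog (n • G) := by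
  intro k p q hk hpq
  simp only [Pi.smul_apply]
  rw [hG k p q hk hpq]

private lemma homog_Oo {G : ℤ → ℤ → ℤ} (c : ℕ) (m : ℤ) (h : Homog G) : Homog (OoE c m G) := by
  have hT : ∀ l : ℕ, 0 < l → Homog (Tl l m G) := fun l hl => homog_Tl l hl m h
  unfold OoE
  split_ifs
  · exact h
  · exact homog_add (hT 3 (by norm_num)) h
  · exact homog_add (hT 5 (by norm_num)) (homog_smul 4 (hT 3 (by norm_num)))
  · exact homog_add (homog_add (homog_add (homog_add (homog_add (homog_smul 3 h)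
      (homog_smul 2 (hT 11 (by norm_num)))) (hT 13 (by norm_num))) (hT 17 (by norm_num)))
      (homog_smul 5 (hT 19 (by norm_num)))) (homog_Tl 3 (by norm_num) m (hT 5 (by norm_num)))

private lemma homog_Uo {G : ℤ → ℤ → ℤ} (m : ℤ) (h : Homog G) : Homog (UoE m G) :=
  homog_sub (homog_sub (homog_Tl 11 (by norm_num) m h)
    (homog_Tl 3 (by norm_num) m (homog_Tl 3 (by norm_num) m h))) (homog_smul 3 h)

private lemma homog_Vo {G : ℤ → ℤ → ℤ} (m : ℤ) (h : Homog G) : Homog (VoE m G) := by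
  have hT : ∀ l : ℕ, 0 < l → Homog (Tl l m G) := fun l hl => homog_Tl l hl m h
  exact homog_add (homog_add (homog_add (homog_add (homog_add (homog_smul 5 h)
    (hT 11 (by norm_num))) (homog_smul 5 (hT 29 (by norm_num))))
    (homog_smul 4 (hT 37 (by norm_num)))) (homog_smul 5 (hT 43 (by norm_num))))
    (homog_Tl 3 (by norm_num) m (homog_add (hT 13 (by norm_num))
      (homog_smul 5 (hT 5 (by norm_num)))))

private lemma iter_Go {O : (ℤ → ℤ → ℂ) → (ℤ → ℤ → ℂ)} {P : (ℤ → ℤ → ℤ) → (ℤ → ℤ → ℤ)} (r : ℕ)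
    (h : ∀ G, O (Go r G) = Go r (P G)) (G : ℤ → ℤ → ℤ) (i : ℕ) :
    O^[i] (Go r G) = Go r (P^[i] G) := by
  induction i with
  | zero => rfl
  | succ i ih => rw [Function.iterate_succ_apply', Function.iterate_succ_apply', ih, h]

private lemma iter_homog {P : (ℤ → ℤ → ℤ) → (ℤ → ℤ → ℤ)} (hP : ∀ G, Homog G → Homog (P G))
    {G : ℤ → ℤ → ℤ} (h : Homog G) (i : ℕ) : Homog (P^[i] G) := by
  induction i with
  | zero => exact h
  | succ i ih =>
    rw [Function.iterate_succ_apply']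
    exact hP _ ih

/-- **Module UNB.** -/
theorem hUnb : TUnb := by
  intro r s G hG
  refine ⟨sym_Go hG, ?_⟩
  intro c i j
  change evE 2 (Go r G) c i j = _
  unfold evE
  rw [iter_Go r (Vo_Go r), iter_Go r (Uo_Go r), Oo_Go c r]
  have hH : Homog (OoE c (2 * 7 ^ r) ((UoE (2 * 7 ^ r))^[i] ((VoE (2 * 7 ^ r))^[j] G))) :=
    homog_Oo c _
      (iter_homog (fun G h => homog_Uo _ h) (iter_homog (fun G h => homog_Vo _ h) hG.1 j) i)
  have e := hH (7 ^ r) 1 0 (by positivity) (Or.inl one_ne_zero)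
  rw [mul_zero] at e
  simp only [Go]
  rw [mul_zero, e, Int.cast_sub]

end Pool.Agent.Helper86.TL7
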